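import Pool.Agent.SawBox.Defs
import Pool.Agent.SawStrip.Mir2
import Pool.Agent.SawStrip.Split

/-!
Two arcs over the same segment form a polygon which is cut into halves by a horizontal line; each
polygon has at most one such line.
-/

set_option autoImplicit false

open Pool.Agent.SawKes Pool.Agent.SawPoly Pool.Agent.SawStrip

namespace Pool.Agent.SawBox

lemma mem_Ar {n : ℕ} {L : List Pt} : L ∈ Ar n ↔ (L.length = n + 1 ∧
    L.head? = some 0 ∧ L.IsChain nb ∧ L.Nodup) ∧ (∀ q ∈ L, 0 ≤ q.2) ∧
    ∃ m : ℤ, L.getLast? = some (m, 0) := by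
  rw [Ar, mem_Ed]
  constructor
  · rintro ⟨h1, h2, p, hp, h3⟩
    refine ⟨h1, fun q hq => ?_, p.1, ?_⟩
    · have := h2 q hq
      unfold ph at this
      simp only at this
      omega
    · have h4 := h2 p (List.mem_of_getLast? hp)
      have h5 := h3 0 (List.mem_of_head? h1.2.1)
      unfold ph at h4 h5
      simp only [Prod.fst_zero, Prod.snd_zero] at h4 h5
      have e : p.2 = 0 := by omega
      rw [Option.mem_def.1 hp, ← e]
  · rintro ⟨h1, h2, m, h3⟩
    refine ⟨h1, fun q hq => ?_, (m, 0), h3, fun q hq => ?_⟩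
    · have := h2 q hq
      unfold ph
      simp only
      omega
    · have := h2 q hq
      unfold ph
      simp only
      omega

/-- the first `n + 1` sites are in `y ≥ 0`, the others in `y < 0` -/
def Half (n : ℕ) (L : List Pt) : Prop :=
  (∀ p ∈ L.take (n + 1), 0 ≤ p.2) ∧ ∀ p ∈ L.drop (n + 1), p.2 < 0

open Classical in
/-- polygons with `2 n + 2` sites, the first `n + 1` of them in `y ≥ 0`, the others in `y < 0` -/
noncomputable def SP (n : ℕ) : Finset (List Pt) := (PG (2 * n + 1)).filter (Half n)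

lemma mem_SP {n : ℕ} {L : List Pt} : L ∈ SP n ↔ (L.length = 2 * n + 1 + 1 ∧ L.head? = some 0 ∧
    Loop L) ∧ (∀ p ∈ L.take (n + 1), 0 ≤ p.2) ∧ ∀ p ∈ L.drop (n + 1), p.2 < 0 := by
  classical
  unfold SP
  rw [Finset.mem_filter, mem_PG, Half]

lemma pair_mem {n : ℕ} {L M : List Pt} (hL : L ∈ Ar n) (hM : M ∈ Ar n)
    (he : L.getLast? = M.getLast?) : Mir2Aux.glue (L, M) ∈ SP n := by
  rw [mem_Ar] at hL hM
  obtain ⟨h1, h2, m, h3⟩ := hL
  obtain ⟨g1, g2, m', g3⟩ := hM
  have hm : m' = m := by
    rw [h3, g3] at he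
    simpa using he.symm
  subst hm
  have hLA : L ∈ A n m' 0 :=
    mem_A.2 ⟨h1, h3, h2, 0, List.mem_of_head? h1.2.1, le_rfl⟩
  have hMA : M ∈ A n m' 0 :=
    mem_A.2 ⟨g1, g3, g2, 0, List.mem_of_head? g1.2.1, le_rfl⟩
  have hP := Mir2Aux.glue_mem hLA hMA
  obtain ⟨⟨p1, p2, p3, p4⟩, p5, -⟩ := mem_P.1 hP
  rw [mem_SP]
  have hlen : L.length = n + 1 := h1.1
  refine ⟨⟨p1, p2, p4, p3, ?_⟩, ?_, ?_⟩
  · intro x hx y hy
    rw [p5, Option.mem_some_iff] at hx
    rw [p2, Option.mem_some_iff] at hy
    subst hx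
    subst hy
    simp [nb]
  · intro p hp
    unfold Mir2Aux.glue at hp
    rw [← hlen, List.take_left'] at hp
    · exact h2 p hp
    · rfl
  · intro p hp
    unfold Mir2Aux.glue at hp
    rw [← hlen, List.drop_left'] at hp
    · rw [List.mem_reverse, List.mem_map] at hp
      obtain ⟨q, hq, rfl⟩ := hp
      have := g2 q hq
      unfold Mir2Aux.mi
      simp only
      omega
    · rfl

theorem sq_Ar_le (n : ℕ) : (Ar n).card ^ 2 ≤ (2 * n + 1) * (SP n).card := by
  classical
  have h1 := sq_card_le (Ar n) (fun L => L.getLast?)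
    ((Finset.Icc (-(n : ℤ)) n).image fun m => some ((m, 0) : Pt)) (by
      intro L hL
      rw [mem_Ar] at hL
      obtain ⟨h1, h2, m, h3⟩ := hL
      have h4 := SplitAux.bnd h1.1 h1.2.1 h1.2.2.1 (List.mem_of_getLast? h3)
      rw [Finset.mem_image]
      exact ⟨m, Finset.mem_Icc.2 h4, h3.symm⟩)
  have h2 : ((Finset.Icc (-(n : ℤ)) n).image fun m => some ((m, 0) : Pt)).card ≤ 2 * n + 1 := by
    refine Finset.card_image_le.trans ?_
    rw [Int.card_Icc]
    omega
  have h3 : ((Ar n ×ˢ Ar n).filter fun x => x.1.getLast? = x.2.getLast?).card ≤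
      (SP n).card := by
    refine Finset.card_le_card_of_injOn Mir2Aux.glue ?_ ?_
    · rintro ⟨L, M⟩ h
      rw [Finset.mem_coe, Finset.mem_filter, Finset.mem_product] at h
      exact pair_mem h.1.1 h.1.2 h.2
    · rintro ⟨L, M⟩ h ⟨L', M'⟩ h' he
      rw [Finset.mem_coe, Finset.mem_filter, Finset.mem_product] at h h'
      have g1 := (mem_Ar.1 h.1.1).1.1
      have g2 := (mem_Ar.1 h'.1.1).1.1
      simp only [Mir2Aux.glue] at he
      have g3 := List.append_inj he (g1.trans g2.symm)
      have g4 := List.reverse_injective g3.2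
      have g5 := (List.map_injective_iff.2 Mir2Aux.mi_inj) g4
      rw [g3.1, g5]
  exact h1.trans (Nat.mul_le_mul h2 h3)

/-- the sign pattern of a polygon in `SP n` -/
lemma SP_pat {n : ℕ} {L : List Pt} (hL : L ∈ SP n) : L.length = 2 * n + 2 ∧
    ∀ (i : ℕ) (h : i < L.length), (0 ≤ (L[i]).2 ↔ i ≤ n) := by
  rw [mem_SP] at hL
  obtain ⟨⟨h1, -, -⟩, h2, h3⟩ := hL
  refine ⟨by omega, fun i h => ⟨fun hi => ?_, fun hi => ?_⟩⟩
  · by_contra hcon
    have h4 : L[i] ∈ L.drop (n + 1) := by
      rw [List.mem_iff_getElem]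
      refine ⟨i - (n + 1), by rw [List.length_drop]; omega, ?_⟩
      rw [List.getElem_drop]
      congr 1
      omega
    have := h3 _ h4
    omega
  · apply h2
    rw [List.mem_iff_getElem]
    refine ⟨i, by rw [List.length_take]; omega, ?_⟩
    rw [List.getElem_take]

lemma SP_ends {n : ℕ} {L : List Pt} (hL : L ∈ SP n) : (0 : Pt) ∈ L ∧
    ∃ p ∈ L, p.2 = -1 := by
  have hp := SP_pat hL
  rw [mem_SP] at hL
  obtain ⟨⟨h1, h0, hl⟩, h2, h3⟩ := hL
  refine ⟨List.mem_of_head? h0, ?_⟩
  have hlast : L.getLast? = some (L[2 * n + 1]'(by omega)) := by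
    rw [List.getLast?_eq_getElem?, List.getElem?_eq_getElem (by omega)]
    congr 2
    omega
  have hn := hl.2.2 _ (Option.mem_def.2 hlast) 0 (Option.mem_def.2 h0)
  refine ⟨L[2 * n + 1]'(by omega), List.getElem_mem _, ?_⟩
  have h4 := (hp.2 (2 * n + 1) (by omega)).not.2 (by omega)
  rw [nb_iff] at hn
  obtain ⟨p, hp'⟩ : ∃ p, p = L[2 * n + 1]'(by omega) := ⟨_, rfl⟩
  rw [← hp'] at hn h4 ⊢
  obtain ⟨a, b⟩ := p
  simp only [Prod.ext_iff, Prod.fst_zero, Prod.snd_zero] at hn h4 ⊢
  omega

/-- the number of sites in `y ≥ 0` -/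
lemma SP_count {n : ℕ} {L : List Pt} (hL : L ∈ SP n) :
    L.countP (fun p => decide (0 ≤ p.2)) = n + 1 := by
  have h0 := hL
  rw [mem_SP] at hL
  obtain ⟨⟨h1, -, -⟩, h2, h3⟩ := hL
  rw [← List.take_append_drop (n + 1) L, List.countP_append]
  have e1 : (L.take (n + 1)).countP (fun p => decide (0 ≤ p.2)) = n + 1 := by
    have hlen : (L.take (n + 1)).length = n + 1 := by rw [List.length_take]; omega
    have hc : (L.take (n + 1)).countP (fun p => decide (0 ≤ p.2)) = (L.take (n + 1)).length := by
      rw [List.countP_eq_length]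
      intro p hp
      simpa using h2 p hp
    rw [hc, hlen]
  have e2 : (L.drop (n + 1)).countP (fun p => decide (0 ≤ p.2)) = 0 := by
    rw [List.countP_eq_zero]
    intro p hp
    simpa using h3 p hp
  rw [e1, e2]

lemma shift_zero {n : ℕ} {L M : List Pt} (hL : L ∈ SP n) (hM : M ∈ SP n) {w : Pt} {j : ℕ}
    (h : M = mv w (L.rotate j)) : w.2 = 0 := by
  have c1 := SP_count hL
  have c2 := SP_count hM
  have c3 : M.countP (fun p => decide (0 ≤ p.2)) = L.countP (fun p => decide (0 ≤ p.2 + w.2)) := by
    rw [h]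
    unfold mv
    rw [List.countP_map]
    have hperm : (L.rotate j).Perm L := List.rotate_perm L j
    rw [hperm.countP_eq]
    rfl
  obtain ⟨e1, p, e2, e3⟩ := SP_ends hL
  rw [c3] at c2
  rcases lt_trichotomy w.2 0 with hw | hw | hw
  · exfalso
    have h4 : L.countP (fun p => decide (0 ≤ p.2 + w.2)) <
        L.countP (fun p => decide (0 ≤ p.2)) := by
      rw [List.countP_eq_length_filter, List.countP_eq_length_filter]
      have hs : List.Sublist (L.filter fun p => decide (0 ≤ p.2 + w.2))
          (L.filter fun p => decide (0 ≤ p.2)) := by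
        have : (L.filter fun p => decide (0 ≤ p.2 + w.2)) =
            (L.filter fun p => decide (0 ≤ p.2)).filter fun p => decide (0 ≤ p.2 + w.2) := by
          rw [List.filter_filter]
          apply List.filter_congr
          intro q _
          rw [Bool.eq_iff_iff, Bool.and_eq_true, decide_eq_true_eq, decide_eq_true_eq]
          omega
        rw [this]
        exact List.filter_sublist
      apply lt_of_le_of_ne hs.length_le
      intro he
      have := hs.eq_of_length he
      have h5 : (0 : Pt) ∈ L.filter fun p => decide (0 ≤ p.2) :=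
        List.mem_filter.2 ⟨e1, by simp⟩
      rw [← this, List.mem_filter] at h5
      have h6 := h5.2
      simp only [Prod.snd_zero, zero_add, decide_eq_true_eq] at h6
      omega
    omega
  · exact hw
  · exfalso
    have h4 : L.countP (fun p => decide (0 ≤ p.2)) <
        L.countP (fun p => decide (0 ≤ p.2 + w.2)) := by
      rw [List.countP_eq_length_filter, List.countP_eq_length_filter]
      have hs : List.Sublist (L.filter fun p => decide (0 ≤ p.2))
          (L.filter fun p => decide (0 ≤ p.2 + w.2)) := by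
        have : (L.filter fun p => decide (0 ≤ p.2)) =
            (L.filter fun p => decide (0 ≤ p.2 + w.2)).filter fun p => decide (0 ≤ p.2) := by
          rw [List.filter_filter]
          apply List.filter_congr
          intro q _
          rw [Bool.eq_iff_iff, Bool.and_eq_true, decide_eq_true_eq, decide_eq_true_eq]
          omega
        rw [this]
        exact List.filter_sublist
      apply lt_of_le_of_ne hs.length_le
      intro he
      have := hs.eq_of_length he
      have h5 : p ∈ L.filter fun p => decide (0 ≤ p.2 + w.2) :=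
        List.mem_filter.2 ⟨e2, by simp only [decide_eq_true_eq]; omega⟩
      rw [← this, List.mem_filter] at h5
      have h6 := h5.2
      simp only [decide_eq_true_eq] at h6
      omega
    omega

lemma rot_zero {n : ℕ} {L M : List Pt} (hL : L ∈ SP n) (hM : M ∈ SP n) {w : Pt} {j : ℕ}
    (hj : j < 2 * n + 2) (h : M = mv w (L.rotate j)) : j = 0 ∧ M = L := by
  have hw := shift_zero hL hM h
  obtain ⟨l1, l2⟩ := SP_pat hL
  obtain ⟨m1, m2⟩ := SP_pat hM
  have hj0 : j = 0 := by
    by_contra hj0
    have key : ∀ (i : ℕ) (hi : i < 2 * n + 2),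
        (M[i]'(by omega)).2 = (L[(i + j) % (2 * n + 2)]'(by
          rw [l1]; exact Nat.mod_lt _ (by omega))).2 := by
      intro i hi
      have : M[i]'(by omega) = (L[(i + j) % (2 * n + 2)]'(by
          rw [l1]; exact Nat.mod_lt _ (by omega))) + w := by
        subst h
        unfold mv
        rw [List.getElem_map, List.getElem_rotate]
        simp only [l1]
      rw [this, Prod.snd_add, hw, add_zero]
    have k0 := key 0 (by omega)
    have k1 := key (2 * n + 1) (by omega)
    have a0 := (m2 0 (by omega)).2 (by omega)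
    rw [k0] at a0
    have b0 := (l2 ((0 + j) % (2 * n + 2)) (by rw [l1]; exact Nat.mod_lt _ (by omega))).1 a0
    have c0 : (0 + j) % (2 * n + 2) = j := by rw [zero_add, Nat.mod_eq_of_lt hj]
    rw [c0] at b0
    have a1 : ¬ 0 ≤ (M[2 * n + 1]'(by omega)).2 := (m2 (2 * n + 1) (by omega)).not.2 (by omega)
    apply a1
    rw [k1]
    apply (l2 ((2 * n + 1 + j) % (2 * n + 2)) (by rw [l1]; exact Nat.mod_lt _ (by omega))).2
    have c1 : (2 * n + 1 + j) % (2 * n + 2) = j - 1 := by
      have : 2 * n + 1 + j = (j - 1) + (2 * n + 2) := by omega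
      rw [this, Nat.add_mod_right, Nat.mod_eq_of_lt (by omega)]
    omega
  subst hj0
  refine ⟨rfl, ?_⟩
  rw [List.rotate_zero] at h
  rw [mem_SP] at hL hM
  have h1 := hM.1.2.1
  rw [h] at h1
  unfold mv at h1
  rw [List.head?_map, hL.1.2.1] at h1
  have hw0 : w = 0 := by simpa using h1
  rw [h, hw0, mv_zero]

theorem SP_le (n : ℕ) : (2 * n + 2) * (SP n).card ≤ (PG (2 * n + 1)).card := by
  classical
  have h1 : (2 * n + 2) * (SP n).card = (Finset.range (2 * n + 2) ×ˢ SP n).card := by
    rw [Finset.card_product, Finset.card_range]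
  rw [h1]
  refine Finset.card_le_card_of_injOn (fun x => nrm (x.2.rotate x.1)) ?_ ?_
  · rintro ⟨k, L⟩ h
    rw [Finset.mem_coe, Finset.mem_product] at h
    have h2 := h.2
    rw [mem_SP] at h2
    obtain ⟨⟨g1, g2, g3⟩, -⟩ := h2
    rw [Finset.mem_coe, mem_PG]
    have hne : L.rotate k ≠ [] := by
      intro e
      have := congrArg List.length e
      rw [List.length_rotate, g1] at this
      simp at this
    refine ⟨?_, ?_, ?_⟩
    · show (nrm (L.rotate k)).length = _
      unfold nrm
      rw [length_mv, List.length_rotate, g1]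
    · show (nrm (L.rotate k)).head? = _
      unfold nrm mv
      rw [List.head?_map]
      obtain ⟨a, t, e⟩ := List.exists_cons_of_ne_nil hne
      rw [e]
      simp
    · show Loop (nrm (L.rotate k))
      unfold nrm
      exact (g3.rotate k).mv _
  · rintro ⟨k, L⟩ h ⟨k', M⟩ h' he
    rw [Finset.mem_coe, Finset.mem_product, Finset.mem_range] at h h'
    simp only at h h' he
    obtain ⟨l1, -⟩ := SP_pat h.2
    obtain ⟨m1, -⟩ := SP_pat h'.2
    unfold nrm at he
    set v := -((L.rotate k).headD 0) with hv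
    set v' := -((M.rotate k').headD 0) with hv'
    have h3 : M.rotate k' = mv (v - v') (L.rotate k) := by
      have h4 := congrArg (mv (-v')) he
      rw [mv_mv, mv_mv, add_neg_cancel, mv_zero] at h4
      rw [← h4, sub_eq_add_neg]
    have h5 : M = mv (v - v') (L.rotate (k + (2 * n + 2 - k'))) := by
      have h6 := congrArg (fun l => List.rotate l (2 * n + 2 - k')) h3
      rw [List.rotate_rotate] at h6
      have h7 : k' + (2 * n + 2 - k') = M.length := by rw [m1]; omega
      rw [h7, List.rotate_length, ← mv_rotate, List.rotate_rotate] at h6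
      exact h6
    have h8 : L.rotate (k + (2 * n + 2 - k')) = L.rotate ((k + (2 * n + 2 - k')) % (2 * n + 2)) := by
      rw [← List.rotate_mod, l1]
    rw [h8] at h5
    obtain ⟨j0, hML⟩ := rot_zero h.2 h'.2 (Nat.mod_lt _ (by omega)) h5
    have hk : k = k' := by
      have h9 : (k + (2 * n + 2 - k')) % (2 * n + 2) = 0 := j0
      obtain ⟨c, hc⟩ := Nat.dvd_of_mod_eq_zero h9
      have hc1 : c = 1 := by
        rcases Nat.lt_or_ge c 1 with hc0 | hc0
        · have : c = 0 := by omega
          subst this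
          omega
        · rcases Nat.lt_or_ge c 2 with hc2 | hc2
          · omega
          · exfalso
            have : (2 * n + 2) * 2 ≤ (2 * n + 2) * c := Nat.mul_le_mul_left _ hc2
            omega
      subst hc1
      omega
    rw [hk, hML]

end Pool.Agent.SawBox
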