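import Pool.Agent.SawStrip.Poly

/-!
Arcs of polynomial weight: lengths up to the power `2 + ε` of the height.
-/

set_option autoImplicit false

open Pool.Agent.SawKes Pool.Agent.SawPoly Pool.Agent.SawStrip

namespace Pool.Agent.SawBox

open SawNu SawNu.SB Pool.Agent.Lib.SAW.HW Pool.Agent.SawBr38 Filter in
theorem Br_lower' (ε : ℝ) (hε : 0 < ε) : ∃ Q₀ : ℕ, ∀ Q : ℕ, Q₀ ≤ Q → ∃ T : ℕ, Q < T ∧ T ≤ 4 * Q ∧
    1 / (400000 * (Q : ℝ) ^ 3) ≤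
      ∑ n ∈ Finset.range (⌈(Q : ℝ) ^ (2 + ε)⌉₊ + 1), ((Br n T).card : ℝ) / mu ^ n := by
  obtain ⟨Q₀, hQ₀⟩ := eventually_atTop.1 (crossing_lower (C := sqC) (L := sqL) mirrored_sq
    (fun b => ⟨(0, 1), by simp [sqL], rfl⟩) (fun _ => rfl) sqRot hε)
  refine ⟨Q₀, fun Q hQ => ?_⟩
  obtain ⟨T, h1, h2, h3⟩ := hQ₀ Q hQ
  refine ⟨T, h1, h2, ?_⟩
  have h4 := h3 ⌈(Q : ℝ) ^ (2 + ε)⌉₊ (Nat.le_ceil _)
  refine h4.trans ?_
  rw [bT_eq_sum]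
  refine Finset.sum_le_sum fun n _ => ?_
  rw [mu_eq_G, div_eq_mul_inv, ← Real.exp_nat_mul, ← Real.exp_neg, mul_comm (n : ℝ)]
  apply mul_le_mul_of_nonneg_right _ (Real.exp_pos _).le
  exact_mod_cast brs_le n T

open PolyAux in
theorem arcs_window : ∃ C : ℕ, ∀ ε : ℝ, 0 < ε → ε ≤ 1 → ∃ Q : ℕ, 2 ≤ Q ∧ ∀ w : ℕ, Q ≤ w →
    ∃ N : ℕ, N ≤ 4 * ⌈(w : ℝ) ^ (2 + ε)⌉₊ + 3 ∧ mu ^ N ≤ (w : ℝ) ^ C * ((A N 1 w).card : ℝ) := by
  obtain ⟨C₁, hC₁, hJ⟩ := J_le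
  have hmu := mu_pos
  obtain ⟨a, ha⟩ : ∃ a : ℕ, 8 * mu ^ 3 * (500000 * C₁) ^ 4 ≤ (2 : ℝ) ^ a := by
    obtain ⟨a, ha⟩ := pow_unbounded_of_one_lt (8 * mu ^ 3 * (500000 * C₁) ^ 4)
      (by norm_num : (1 : ℝ) < 2)
    exact ⟨a, ha.le⟩
  refine ⟨116 + a, fun ε hε hε1 => ?_⟩
  obtain ⟨Q₀, hQ⟩ := Br_lower' ε hε
  refine ⟨max Q₀ 2, le_max_right _ _, fun w hw => ?_⟩
  have hw0 : Q₀ ≤ w := (le_max_left _ _).trans hw
  have hw2 : 2 ≤ w := (le_max_right _ _).trans hw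
  have hwr : (2 : ℝ) ≤ w := by exact_mod_cast hw2
  have hwpos : (0 : ℝ) < w := by linarith
  obtain ⟨M, hMdef⟩ : ∃ M : ℕ, M = ⌈(w : ℝ) ^ (2 + ε)⌉₊ := ⟨_, rfl⟩
  have hM3 : M ≤ w ^ 3 := by
    rw [hMdef, Nat.ceil_le]
    push_cast
    calc (w : ℝ) ^ (2 + ε) ≤ (w : ℝ) ^ (3 : ℝ) :=
          Real.rpow_le_rpow_of_exponent_le (by linarith) (by linarith)
      _ = (w : ℝ) ^ 3 := by rw [← Real.rpow_natCast]; norm_num
  obtain ⟨T, hT1, hT2, hsum⟩ := hQ w hw0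
  rw [← hMdef] at hsum
  set δ : ℝ := 1 / (500000 * C₁ * (w : ℝ) ^ 28) with hδdef
  have hδ : 0 < δ := by
    rw [hδdef]
    positivity
  have hw3 : (8 : ℝ) ≤ (w : ℝ) ^ 3 := by
    calc (8 : ℝ) = 2 ^ 3 := by norm_num
      _ ≤ (w : ℝ) ^ 3 := pow_le_pow_left₀ (by norm_num) hwr 3
  -- a large family `J`
  have key : ∃ j ≤ M, ∃ X Y : ℤ, (T : ℤ) ≤ 2 * Y ∧ δ * mu ^ j < ((J j X Y).card : ℝ) := by
    by_contra hcon
    push Not at hcon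
    have hb : ∀ n ∈ Finset.range (M + 1), ((Br n T).card : ℝ) / mu ^ n ≤
        (w : ℝ) ^ 4 * ((w : ℝ) ^ 4 * ((w : ℝ) ^ 4 * ((w : ℝ) ^ 5 * (δ * (C₁ * (w : ℝ) ^ 4))))) := by
      intro n hn
      have hn0 : n ≤ M := by
        have := Finset.mem_range.1 hn
        omega
      have hn' : n ≤ w ^ 3 := hn0.trans hM3
      have h1 := Br_small (M := M) (T := T) (n := n) hJ hδ.le (by linarith) hcon hn0
      have hnr : (n : ℝ) ≤ (w : ℝ) ^ 3 := by exact_mod_cast hn'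
      have hTr : (T : ℝ) ≤ 4 * w := by exact_mod_cast hT2
      have hn0 : (0 : ℝ) ≤ n := Nat.cast_nonneg n
      have hT0 : (0 : ℝ) ≤ T := Nat.cast_nonneg T
      have hw4 : 2 * (w : ℝ) ^ 3 ≤ (w : ℝ) ^ 4 := by
        have e : (w : ℝ) ^ 4 = w * (w : ℝ) ^ 3 := by ring
        rw [e]
        exact mul_le_mul_of_nonneg_right hwr (by linarith)
      have b1 : (n : ℝ) + 1 ≤ (w : ℝ) ^ 4 := by linarith
      have b2 : (T : ℝ) + 1 ≤ (w : ℝ) ^ 4 := by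
        have e : (w : ℝ) ^ 4 = (w : ℝ) ^ 3 * w := by ring
        have : 8 * (w : ℝ) ≤ (w : ℝ) ^ 3 * w := mul_le_mul_of_nonneg_right hw3 hwpos.le
        linarith
      have b3 : 2 * (n : ℝ) + 1 ≤ (w : ℝ) ^ 5 := by
        have e : (w : ℝ) ^ 5 = w * (w : ℝ) ^ 4 := by ring
        have : 2 * (w : ℝ) ^ 4 ≤ w * (w : ℝ) ^ 4 :=
          mul_le_mul_of_nonneg_right hwr (by positivity)
        linarith
      rw [div_le_iff₀ (pow_pos hmu n)]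
      refine h1.trans ?_
      have hC0 : (0 : ℝ) ≤ C₁ := by linarith
      calc ((n : ℝ) + 1) * (((n : ℝ) + 1) * (((T : ℝ) + 1) * ((2 * (n : ℝ) + 1) *
            (δ * (C₁ * ((n : ℝ) + 1)) * mu ^ n))))
          ≤ (w : ℝ) ^ 4 * ((w : ℝ) ^ 4 * ((w : ℝ) ^ 4 * ((w : ℝ) ^ 5 *
            (δ * (C₁ * (w : ℝ) ^ 4) * mu ^ n)))) := by gcongr
        _ = _ := by ring
    have h2 := Finset.sum_le_sum hb
    rw [Finset.sum_const, nsmul_eq_mul, Finset.card_range] at h2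
    have hw4 : ((M + 1 : ℕ) : ℝ) ≤ (w : ℝ) ^ 4 := by
      push_cast
      have hMr : (M : ℝ) ≤ (w : ℝ) ^ 3 := by exact_mod_cast hM3
      have e : (w : ℝ) ^ 4 = w * (w : ℝ) ^ 3 := by ring
      have : 2 * (w : ℝ) ^ 3 ≤ w * (w : ℝ) ^ 3 := mul_le_mul_of_nonneg_right hwr (by linarith)
      linarith
    have h3 : ((M + 1 : ℕ) : ℝ) * ((w : ℝ) ^ 4 * ((w : ℝ) ^ 4 * ((w : ℝ) ^ 4 *
        ((w : ℝ) ^ 5 * (δ * (C₁ * (w : ℝ) ^ 4)))))) ≤ 1 / (500000 * (w : ℝ) ^ 3) := by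
      calc ((M + 1 : ℕ) : ℝ) * ((w : ℝ) ^ 4 * ((w : ℝ) ^ 4 * ((w : ℝ) ^ 4 *
            ((w : ℝ) ^ 5 * (δ * (C₁ * (w : ℝ) ^ 4))))))
          ≤ (w : ℝ) ^ 4 * ((w : ℝ) ^ 4 * ((w : ℝ) ^ 4 * ((w : ℝ) ^ 4 *
            ((w : ℝ) ^ 5 * (δ * (C₁ * (w : ℝ) ^ 4)))))) :=
            mul_le_mul_of_nonneg_right hw4 (by positivity)
        _ = 1 / (500000 * (w : ℝ) ^ 3) := by
            rw [hδdef]
            have hC0 : C₁ ≠ 0 := by linarith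
            have hw0 : (w : ℝ) ≠ 0 := hwpos.ne'
            field_simp
    have h4 : 1 / (500000 * (w : ℝ) ^ 3) < 1 / (400000 * (w : ℝ) ^ 3) := by
      apply one_div_lt_one_div_of_lt (by positivity)
      have : (0 : ℝ) < (w : ℝ) ^ 3 := by positivity
      linarith
    linarith
  obtain ⟨j, hj, X, Y, hY, hJc⟩ := key
  have hjr : (j : ℝ) ≤ (w : ℝ) ^ 3 := by exact_mod_cast hj.trans hM3
  have h5 := arcs_of_J (j := j) (X := X) (Y := Y) (w := w) (by omega)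
  have h6 : (δ * mu ^ j) ^ 4 ≤ ((J j X Y).card : ℝ) ^ 4 :=
    pow_le_pow_left₀ (by positivity) hJc.le 4
  refine ⟨4 * j + 3, by omega, ?_⟩
  have hj4 : (j : ℝ) + 1 ≤ (w : ℝ) ^ 4 := by
    have e : (w : ℝ) ^ 4 = w * (w : ℝ) ^ 3 := by ring
    have : 2 * (w : ℝ) ^ 3 ≤ w * (w : ℝ) ^ 3 := mul_le_mul_of_nonneg_right hwr (by linarith)
    linarith
  have hA0 : (0 : ℝ) ≤ ((A (4 * j + 3) 1 w).card : ℝ) := Nat.cast_nonneg _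
  have h7 : (δ * mu ^ j) ^ 4 ≤ 8 * (w : ℝ) ^ 4 * ((A (4 * j + 3) 1 w).card : ℝ) := by
    refine (h6.trans h5).trans ?_
    apply mul_le_mul_of_nonneg_right _ hA0
    linarith
  have h8 : mu ^ (4 * j + 3) = (500000 * C₁ * (w : ℝ) ^ 28) ^ 4 * mu ^ 3 * (δ * mu ^ j) ^ 4 := by
    have e : (500000 * C₁ * (w : ℝ) ^ 28) * δ = 1 := by
      rw [hδdef]
      apply mul_one_div_cancel
      have : 0 < 500000 * C₁ * (w : ℝ) ^ 28 := by positivity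
      exact this.ne'
    calc mu ^ (4 * j + 3) = 1 ^ 4 * (mu ^ 3 * (mu ^ j) ^ 4) := by ring
      _ = ((500000 * C₁ * (w : ℝ) ^ 28) * δ) ^ 4 * (mu ^ 3 * (mu ^ j) ^ 4) := by rw [e]
      _ = _ := by ring
  rw [h8]
  calc (500000 * C₁ * (w : ℝ) ^ 28) ^ 4 * mu ^ 3 * (δ * mu ^ j) ^ 4
      ≤ (500000 * C₁ * (w : ℝ) ^ 28) ^ 4 * mu ^ 3 *
        (8 * (w : ℝ) ^ 4 * ((A (4 * j + 3) 1 w).card : ℝ)) :=
        mul_le_mul_of_nonneg_left h7 (by positivity)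
    _ = (8 * mu ^ 3 * (500000 * C₁) ^ 4) * ((w : ℝ) ^ 116 *
        ((A (4 * j + 3) 1 w).card : ℝ)) := by ring
    _ ≤ (w : ℝ) ^ a * ((w : ℝ) ^ 116 * ((A (4 * j + 3) 1 w).card : ℝ)) := by
        apply mul_le_mul_of_nonneg_right _ (by positivity)
        exact ha.trans (pow_le_pow_left₀ (by norm_num) hwr a)
    _ = (w : ℝ) ^ (116 + a) * ((A (4 * j + 3) 1 w).card : ℝ) := by
        rw [pow_add]
        ring

end Pool.Agent.SawBox
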