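import Pool.Agent.SawBox.Arcs
import Pool.Agent.SawBox.Win
import Pool.Agent.SawPoly.Reg2

/-!
Lower bounds in blocks of lengths.
-/

set_option autoImplicit false

open Pool.Agent.SawKes Pool.Agent.SawPoly Pool.Agent.SawStrip Pool.Agent.SawLim

namespace Pool.Agent.SawBox

/-- walks with a given last site -/
noncomputable def Pv (n : ℕ) (v : Pt) : Finset (List Pt) := (W n).filter fun L => L.getLast? = some v

lemma mem_Pv {n : ℕ} {v : Pt} {L : List Pt} : L ∈ Pv n v ↔ (L.length = n + 1 ∧
    L.head? = some 0 ∧ L.IsChain nb ∧ L.Nodup) ∧ L.getLast? = some v := by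
  rw [Pv, Finset.mem_filter, mem_W]

lemma card_Pv_rot (n : ℕ) (v : Pt) : (Pv n v).card ≤ (Pv n (rot v)).card := by
  refine Finset.card_le_card_of_injOn (List.map rot) ?_ ?_
  · intro L hL
    rw [Finset.mem_coe, mem_Pv] at hL ⊢
    refine ⟨map_mem_W rot_inj rfl (fun _ _ => nb_rot) hL.1, ?_⟩
    rw [List.getLast?_map, hL.2]
    rfl
  · intro L _ M _ h
    exact List.map_injective_iff.2 rot_inj h

lemma Pv_sub (n : ℕ) : Pv n (0, -1) ⊆ P n 0 := by
  intro L hL
  rw [mem_Pv] at hL
  rw [mem_P]
  exact ⟨hL.1, hL.2, 0, List.mem_of_head? hL.1.2.1, 0, List.mem_of_head? hL.1.2.1, by simp⟩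

lemma card_PG_le (n : ℕ) : (PG n).card ≤ 4 * (P n 0).card := by
  classical
  have h0 : (Pv n (0, -1)).card ≤ (P n 0).card := Finset.card_le_card (Pv_sub n)
  have h1 : (Pv n (-1, 0)).card ≤ (P n 0).card := by
    have e : rot (-1, 0) = (0, -1) := by simp [rot]
    have := card_Pv_rot n (-1, 0)
    rw [e] at this
    exact this.trans h0
  have h2 : (Pv n (0, 1)).card ≤ (P n 0).card := by
    have e : rot (0, 1) = (-1, 0) := by simp [rot]
    have := card_Pv_rot n (0, 1)
    rw [e] at this
    exact this.trans h1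
  have h3 : (Pv n (1, 0)).card ≤ (P n 0).card := by
    have e : rot (1, 0) = (0, 1) := by simp [rot]
    have := card_Pv_rot n (1, 0)
    rw [e] at this
    exact this.trans h2
  have hsub : PG n ⊆ ds.biUnion fun v => Pv n v := by
    intro L hL
    rw [mem_PG] at hL
    obtain ⟨l1, l2, l3, l4, l5⟩ := hL
    have hne : L ≠ [] := by
      rintro rfl
      simp at l1
    obtain ⟨v, hv⟩ : ∃ v, L.getLast? = some v := ⟨L.getLast hne, List.getLast?_eq_getLast_of_ne_nil hne⟩
    have h := l5 v (Option.mem_def.2 hv) 0 (Option.mem_def.2 l2)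
    rw [Finset.mem_biUnion]
    refine ⟨v, ?_, mem_Pv.2 ⟨⟨l1, l2, l4, l3⟩, hv⟩⟩
    have h' := nb_comm.1 h
    rw [nb_iff] at h'
    simp only [ds, Finset.mem_insert, Finset.mem_singleton, Prod.fst_zero, Prod.snd_zero,
      zero_add, zero_sub] at h' ⊢
    tauto
  refine (Finset.card_le_card hsub).trans ?_
  refine (Finset.card_biUnion_le_card_mul _ _ (P n 0).card ?_).trans ?_
  · intro v hv
    simp only [ds, Finset.mem_insert, Finset.mem_singleton] at hv
    rcases hv with rfl | rfl | rfl | rfl
    · exact h0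
    · exact h2
    · exact h3
    · exact h1
  · apply Nat.mul_le_mul_right
    decide

lemma A_sub_Ar (n : ℕ) (m h : ℤ) : A n m h ⊆ Ar n := by
  intro L hL
  rw [mem_A] at hL
  rw [mem_Ar]
  exact ⟨hL.1, hL.2.2.1, m, hL.2.1⟩

lemma A_sub_PG (n : ℕ) (h : ℤ) : A n 1 h ⊆ PG n := by
  intro L hL
  rw [mem_A] at hL
  obtain ⟨⟨l1, l2, l3, l4⟩, l5, -⟩ := hL
  rw [mem_PG]
  refine ⟨l1, l2, l4, l3, ?_⟩
  intro x hx y hy
  rw [l5, Option.mem_some_iff] at hx
  rw [l2, Option.mem_some_iff] at hy
  subst hx
  subst hy
  simp [nb]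

lemma PG_le_Ar {n : ℕ} (hn : 2 ≤ n) : (PG n).card ≤ 8 * (n + 1) * (A n 1 0).card := by
  have h1 := card_PG_le n
  have h2 := P_le n hn 0
  calc (PG n).card ≤ 4 * (P n 0).card := h1
    _ ≤ 4 * (2 * (n + 1) * (A n 1 0).card) := Nat.mul_le_mul_left _ h2
    _ = _ := by ring

/-- three more steps -/
def ext3 (L : List Pt) : List Pt := 0 :: (L.map fun p => (p.1, p.2 + 1)) ++ [(1, 0), (2, 0)]

lemma A_le_Ar3 (n : ℕ) : (A n 1 0).card ≤ (Ar (n + 3)).card := by
  refine Finset.card_le_card_of_injOn ext3 ?_ ?_
  · intro L hL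
    rw [Finset.mem_coe, mem_A] at hL
    obtain ⟨⟨l1, l2, l3, l4⟩, l5, l6, -⟩ := hL
    rw [Finset.mem_coe, mem_Ar]
    have hinj : Function.Injective fun p : Pt => ((p.1, p.2 + 1) : Pt) := by
      rintro ⟨a, b⟩ ⟨c, d⟩ h
      simp only [Prod.mk.injEq] at h ⊢
      omega
    have hch : (L.map fun p => ((p.1, p.2 + 1) : Pt)).IsChain nb := by
      rw [List.isChain_map]
      refine l3.imp fun a b hab => ?_
      rw [nb_iff] at hab ⊢
      obtain ⟨a1, a2⟩ := a
      obtain ⟨b1, b2⟩ := b
      simp only [Prod.mk.injEq] at hab ⊢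
      omega
    have hhd : (L.map fun p => ((p.1, p.2 + 1) : Pt)).head? = some (0, 1) := by
      rw [List.head?_map, l2]
      rfl
    have hlt : (L.map fun p => ((p.1, p.2 + 1) : Pt)).getLast? = some (1, 1) := by
      rw [List.getLast?_map, l5]
      rfl
    have hpos : ∀ q ∈ L.map (fun p => ((p.1, p.2 + 1) : Pt)), 0 < q.2 := by
      intro q hq
      obtain ⟨p, hp, rfl⟩ := List.mem_map.1 hq
      have := l6 p hp
      simp only
      omega
    have hlen : (L.map fun p => ((p.1, p.2 + 1) : Pt)).length = n + 1 := by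
      rw [List.length_map, l1]
    have hnd : (L.map fun p => ((p.1, p.2 + 1) : Pt)).Nodup := l4.map hinj
    unfold ext3
    generalize (L.map fun p => ((p.1, p.2 + 1) : Pt)) = K at hch hhd hlt hpos hlen hnd ⊢
    refine ⟨⟨?_, rfl, ?_, ?_⟩, ?_, 2, ?_⟩
    · rw [List.cons_append, List.length_cons, List.length_append, hlen]
      simp
    · rw [List.isChain_append]
      refine ⟨?_, ?_, ?_⟩
      · rw [List.isChain_cons]
        refine ⟨?_, hch⟩
        intro y hy
        rw [hhd, Option.mem_some_iff] at hy
        subst hy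
        simp [nb]
      · simp [nb]
      · intro x hx y hy
        have hne : K ≠ [] := by
          rintro rfl
          simp at hhd
        have e : (0 :: K).getLast? = some (1, 1) := by
          rw [← hlt]
          exact List.getLast?_cons_of_ne_nil hne
        rw [e, Option.mem_some_iff] at hx
        simp only [List.head?_cons, Option.mem_some_iff] at hy
        subst hx
        subst hy
        simp [nb]
    · rw [List.nodup_append, List.nodup_cons]
      refine ⟨⟨?_, hnd⟩, by simp, ?_⟩
      · intro h0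
        have := hpos 0 h0
        simp at this
      · intro x hx y hy hxy
        subst hxy
        simp only [List.mem_cons, List.not_mem_nil, or_false] at hy
        rcases List.mem_cons.1 hx with rfl | hx
        · rcases hy with hy | hy
          · have := congrArg Prod.fst hy
            simp at this
          · have := congrArg Prod.fst hy
            simp at this
        · have := hpos x hx
          rcases hy with hy | hy
          · rw [hy] at this
            simp at this
          · rw [hy] at this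
            simp at this
    · intro q hq
      rw [List.mem_append] at hq
      rcases hq with hq | hq
      · rcases List.mem_cons.1 hq with rfl | hq
        · simp
        · exact (hpos q hq).le
      · simp only [List.mem_cons, List.not_mem_nil, or_false] at hq
        rcases hq with rfl | rfl <;> simp
    · rw [List.getLast?_append_of_ne_nil _ (by simp)]
      rfl
  · intro L _ M _ h
    unfold ext3 at h
    have h1 := List.append_cancel_right h
    have h2 := (List.cons.inj h1).2
    refine List.map_injective_iff.2 ?_ h2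
    rintro ⟨a, b⟩ ⟨c, d⟩ h
    simp only [Prod.mk.injEq] at h ⊢
    omega

end Pool.Agent.SawBox
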