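import Pool.Agent.SawBox.Defs
import Pool.Agent.SawStrip.Cross

/-!
Crossings are bridges.
-/

set_option autoImplicit false

open Pool.Agent.SawKes Pool.Agent.SawPoly Pool.Agent.SawStrip
open SawNu SawNu.SB Pool.Agent.Lib.SAW.HW Pool.Agent.SawBr38

namespace Pool.Agent.SawBox

lemma ps_cons' (s : SawNu.Pt) (l : List SawNu.Pt) (i : ℕ) : ps (s :: l) (i + 1) = s + ps l i := by
  simp only [ps, List.take_succ_cons, List.sum_cons]

theorem Cr_le_brs (n : ℕ) : (Cr n).card ≤ (brs sqC (n + 1)).card := by
  classical
  have hsub : Cr n ⊆ ((brs sqC (n + 1)).image fun l => sitesOf 0 l.tail) := by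
    intro L hL
    unfold Cr Ed at hL
    rw [Finset.mem_filter] at hL
    obtain ⟨h1, h2, p, hp, h3⟩ := hL
    unfold W walks at h1
    rw [Finset.mem_image] at h1
    obtain ⟨l, hl, rfl⟩ := h1
    rw [WS_eq_sas (C := sqC) (fun _ => rfl), mem_sas] at hl
    obtain ⟨l1, l2, l3⟩ := hl
    have hget : ∀ i (h : i < (sitesOf 0 l).length), (sitesOf 0 l)[i] = ps l i := by
      intro i h
      rw [getElem_sitesOf, zero_add]
    have hlen : (sitesOf 0 l).length = n + 1 := by rw [length_sitesOf, l1]
    have hmem : ∀ i ≤ l.length, ps l i ∈ sitesOf 0 l := by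
      intro i hi
      rw [← hget i (by omega)]
      exact List.getElem_mem _
    have hpos : ∀ i ≤ l.length, 0 ≤ (ps l i).2 := by
      intro i hi
      have := h2 _ (hmem i hi)
      unfold ph at this
      simp only at this
      omega
    have hpe : p = l.sum := by
      rw [Option.mem_def, List.getLast?_eq_getElem?, hlen, Nat.add_sub_cancel,
        List.getElem?_eq_getElem (by omega), hget] at hp
      have := Option.some.inj hp
      rw [← this, ← l1, ps, List.take_length]
    have hle : ∀ i ≤ l.length, (ps l i).2 ≤ l.sum.2 := by
      intro i hi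
      have := h3 _ (hmem i hi)
      unfold ph at this
      rw [hpe] at this
      simp only at this
      omega
    rw [Finset.mem_image]
    refine ⟨(0, 1) :: l, ?_, rfl⟩
    rw [mem_brs]
    refine ⟨by rw [List.length_cons, l1], ?_, ?_, ?_, ?_⟩
    · intro s hs
      rcases List.mem_cons.1 hs with rfl | hs
      · simp [sqC]
      · exact l2 s hs
    · have ha : SA [((0, 1) : SawNu.Pt)] := by
        intro i j hij hj
        simp only [List.length_cons, List.length_nil] at hj
        have hi0 : i = 0 := by omega
        have hj1 : j = 1 := by omega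
        subst hi0
        subst hj1
        intro h
        have h2 := congrArg Prod.snd h
        simp [ps] at h2
      have hd : Dn [((0, 1) : SawNu.Pt)] := by
        intro i hi
        simp only [List.length_cons, List.length_nil] at hi
        have hi0 : i = 0 := by omega
        subst hi0
        simp
      exact SA.append_of_wup ha l3 hd hpos
    · intro i hi0 hi
      obtain ⟨j, rfl⟩ : ∃ j, i = j + 1 := ⟨i - 1, by omega⟩
      rw [ps_cons']
      rw [List.length_cons] at hi
      have := hpos j (by omega)
      simp only [Prod.snd_add]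
      omega
    · intro i hi
      rw [List.length_cons] at hi
      rw [List.sum_cons]
      rcases i with _ | j
      · have := hpos l.length le_rfl
        rw [ps, List.take_length] at this
        simp only [ps_zero, Prod.snd_zero, Prod.snd_add]
        omega
      · rw [ps_cons']
        have := hle j (by omega)
        simp only [Prod.snd_add]
        omega
  exact (Finset.card_le_card hsub).trans Finset.card_image_le

theorem Cr_le (n : ℕ) : ((Cr n).card : ℝ) ≤ mu ^ (n + 1) := by
  have h1 : ((Cr n).card : ℝ) ≤ ((brs sqC (n + 1)).card : ℝ) := by exact_mod_cast Cr_le_brs n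
  refine h1.trans ((card_brs_le (C := sqC) (n + 1)).trans (le_of_eq ?_))
  rw [mu_eq_G, ← Real.exp_nat_mul, mul_comm]

end Pool.Agent.SawBox
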