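import Pool.Agent.SawBox.Arcs

/-!
Two corner walks which end in the same row form an arc.
-/

set_option autoImplicit false

open Pool.Agent.SawKes Pool.Agent.SawPoly Pool.Agent.SawStrip

namespace Pool.Agent.SawBox

lemma mem_Co {n : ℕ} {L : List Pt} : L ∈ Co n ↔ (L.length = n + 1 ∧
    L.head? = some 0 ∧ L.IsChain nb ∧ L.Nodup) ∧ (∀ q ∈ L, 0 ≤ q.2) ∧
    ∃ p : Pt, L.getLast? = some p ∧ ∀ q ∈ L, q.1 ≤ p.1 := by
  rw [Co, mem_Ed]
  constructor
  · rintro ⟨h1, h2, p, hp, h3⟩
    refine ⟨h1, fun q hq => ?_, p, hp, fun q hq => ?_⟩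
    · have := h2 q hq
      unfold ph at this
      simp only at this
      omega
    · have := h3 q hq
      unfold ph at this
      simp only at this
      omega
  · rintro ⟨h1, h2, p, hp, h3⟩
    refine ⟨h1, fun q hq => ?_, p, hp, fun q hq => ?_⟩
    · have := h2 q hq
      unfold ph
      simp only
      omega
    · have := h3 q hq
      unfold ph
      simp only
      omega

/-- the height is at most the number of steps -/
theorem abs_le2 {L : List Pt} (hc : L.IsChain nb) : ∀ (i : ℕ) (hi : i < L.length),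
    |L[i].2 - (L[0]'(by omega)).2| ≤ i := by
  intro i
  induction i with
  | zero =>
    intro hi
    simp
  | succ i ih =>
    intro hi
    have h1 := ih (by omega)
    have h2 : nb L[i] L[i + 1] := List.isChain_iff_getElem.1 hc i (by omega)
    unfold nb at h2
    have h3 := abs_nonneg (L[i + 1].1 - L[i].1)
    have h4 : |L[i + 1].2 - L[i].2| ≤ 1 := by omega
    have h5 : |L[i + 1].2 - (L[0]'(by omega)).2| ≤
        |L[i + 1].2 - L[i].2| + |L[i].2 - (L[0]'(by omega)).2| := abs_sub_le _ _ _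
    push_cast
    omega

theorem bnd2 {n : ℕ} {L : List Pt} (hl : L.length = n + 1) (hh : L.head? = some 0)
    (hc : L.IsChain nb) {p : Pt} (hp : p ∈ L) : p.2 ≤ n := by
  obtain ⟨i, hi, rfl⟩ := List.getElem_of_mem hp
  have h1 := abs_le2 hc i hi
  have h0 : L[0]'(by omega) = 0 := by
    rw [List.head?_eq_getElem?, List.getElem?_eq_getElem (by omega)] at hh
    exact Option.some.inj hh
  rw [h0] at h1
  have h2 : |L[i].2| ≤ i := by simpa using h1
  rw [_root_.abs_le] at h2
  omega

/-- first coordinate of the last site -/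
def lx (L : List Pt) : ℤ := (L.getLastD 0).1

/-- the mirror -/
def mr (c : ℤ) (p : Pt) : Pt := (c - p.1, p.2)

lemma mr_inj (c : ℤ) : Function.Injective (mr c) := by
  rintro ⟨a, b⟩ ⟨a', b'⟩ h
  simp only [mr, Prod.mk.injEq] at h ⊢
  omega

lemma nb_mr {c : ℤ} {p q : Pt} (h : nb p q) : nb (mr c p) (mr c q) := by
  rw [nb_iff] at h ⊢
  obtain ⟨a, b⟩ := p
  obtain ⟨a', b'⟩ := q
  simp only [mr, Prod.mk.injEq] at h ⊢
  omega

/-- the glued walk -/
def glue2 (x : List Pt × List Pt) : List Pt :=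
  x.1 ++ (x.2.map (mr (lx x.1 + lx x.2 + 1))).reverse

lemma glue2_mem {n : ℕ} {L M : List Pt} (hL : L ∈ Co n) (hM : M ∈ Co n)
    (he : (L.getLastD 0).2 = (M.getLastD 0).2) : glue2 (L, M) ∈ Ar (2 * n + 1) := by
  rw [mem_Co] at hL hM
  obtain ⟨⟨a1, a2, a3, a4⟩, a5, p, a6, a7⟩ := hL
  obtain ⟨⟨b1, b2, b3, b4⟩, b5, q, b6, b7⟩ := hM
  have eL : L.getLastD 0 = p := by rw [List.getLastD_eq_getLast?, a6]; rfl
  have eM : M.getLastD 0 = q := by rw [List.getLastD_eq_getLast?, b6]; rfl
  have hlx : lx L = p.1 := by unfold lx; rw [eL]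
  have hlx' : lx M = q.1 := by unfold lx; rw [eM]
  rw [eL, eM] at he
  have hne1 : L ≠ [] := by
    intro e
    rw [e] at a1
    simp at a1
  have hne : (M.map (mr (lx L + lx M + 1))).reverse ≠ [] := by
    intro e
    rw [List.reverse_eq_nil_iff, List.map_eq_nil_iff] at e
    rw [e] at b1
    simp at b1
  rw [mem_Ar]
  unfold glue2
  refine ⟨⟨?_, ?_, ?_, ?_⟩, ?_, lx L + lx M + 1, ?_⟩
  · simp only [List.length_append, List.length_reverse, List.length_map, a1, b1]
    ring
  · rw [List.head?_append_of_ne_nil _ hne1]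
    exact a2
  · rw [List.isChain_append]
    refine ⟨a3, ?_, ?_⟩
    · rw [List.isChain_reverse, List.isChain_map]
      exact b3.imp fun a b hab => nb_comm.1 (nb_mr hab)
    · intro x hx y hy
      simp only [a6, Option.mem_def, Option.some.injEq] at hx
      simp only [List.head?_reverse, List.getLast?_map, b6, Option.map_some,
        Option.mem_def, Option.some.injEq] at hy
      subst hx
      subst hy
      rw [nb_iff]
      left
      simp only [mr, Prod.mk.injEq]
      rw [hlx, hlx']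
      exact ⟨by ring, he.symm⟩
  · rw [List.nodup_append']
    refine ⟨a4, ?_, ?_⟩
    · rw [List.nodup_reverse]
      exact b4.map (mr_inj _)
    · intro x hx hx'
      rw [List.mem_reverse, List.mem_map] at hx'
      obtain ⟨y, hy, rfl⟩ := hx'
      have h1 := a7 _ hx
      have h2 := b7 _ hy
      simp only [mr] at h1
      rw [hlx, hlx'] at h1
      omega
  · intro x hx
    rw [List.mem_append, List.mem_reverse, List.mem_map] at hx
    rcases hx with hx | ⟨y, hy, rfl⟩
    · exact a5 _ hx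
    · exact (by simpa [mr] using b5 _ hy : 0 ≤ (mr _ y).2)
  · rw [List.getLast?_append_of_ne_nil _ hne, List.getLast?_reverse, List.head?_map, b2]
    simp [mr]

theorem sq_Co_le (n : ℕ) : (Co n).card ^ 2 ≤ (n + 1) * (Ar (2 * n + 1)).card := by
  classical
  have h1 := sq_card_le (Co n) (fun L => (L.getLastD 0).2) (Finset.Icc (0 : ℤ) n) (by
      intro L hL
      rw [mem_Co] at hL
      obtain ⟨h1, h2, p, h3, h4⟩ := hL
      have e : L.getLastD 0 = p := by rw [List.getLastD_eq_getLast?, h3]; rfl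
      have hp : p ∈ L := List.mem_of_getLast? h3
      simp only [e]
      rw [Finset.mem_Icc]
      exact ⟨h2 p hp, bnd2 h1.1 h1.2.1 h1.2.2.1 hp⟩)
  have h2 : (Finset.Icc (0 : ℤ) n).card = n + 1 := by rw [Int.card_Icc]; omega
  have h3 : ((Co n ×ˢ Co n).filter fun x => (x.1.getLastD 0).2 = (x.2.getLastD 0).2).card ≤
      (Ar (2 * n + 1)).card := by
    refine Finset.card_le_card_of_injOn glue2 ?_ ?_
    · rintro ⟨L, M⟩ h
      rw [Finset.mem_coe, Finset.mem_filter, Finset.mem_product] at h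
      exact glue2_mem h.1.1 h.1.2 h.2
    · rintro ⟨L, M⟩ h ⟨L', M'⟩ h' he
      rw [Finset.mem_coe, Finset.mem_filter, Finset.mem_product] at h h'
      obtain ⟨⟨a1, a2, a3, a4⟩, -, -⟩ := mem_Co.1 h.1.1
      obtain ⟨⟨b1, b2, b3, b4⟩, -, -⟩ := mem_Co.1 h'.1.1
      obtain ⟨⟨c1, c2, c3, c4⟩, -, -⟩ := mem_Co.1 h.1.2
      obtain ⟨⟨d1, d2, d3, d4⟩, -, -⟩ := mem_Co.1 h'.1.2
      simp only [glue2] at he
      have g3 := List.append_inj he (a1.trans b1.symm)
      have g4 := List.reverse_injective g3.2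
      have g5 : lx L + lx M + 1 = lx L' + lx M' + 1 := by
        have := congrArg List.head? g4
        simp only [List.head?_map, c2, d2, Option.map_some, Option.some.injEq, mr, Prod.fst_zero,
          Prod.snd_zero, Prod.mk.injEq, sub_zero, and_true] at this
        exact this
      rw [← g5] at g4
      have g6 := (List.map_injective_iff.2 (mr_inj _)) g4
      rw [g3.1, g6]
  rw [h2] at h1
  exact h1.trans (Nat.mul_le_mul_left _ h3)

end Pool.Agent.SawBox
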