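import Pool.Agent.SawStrip.Defs
import Pool.Agent.SawPoly.PG

/-!
Walks whose two end points lie on the boundary of their bounding box.
-/

set_option autoImplicit false

open Pool.Agent.SawKes Pool.Agent.SawPoly Pool.Agent.SawStrip

namespace Pool.Agent.SawBox

/-- a linear functional -/
def ph (v p : Pt) : ℤ := v.1 * p.1 + v.2 * p.2

/-- walks whose first site is extremal in direction `v` and whose last site is extremal in
direction `u` -/
noncomputable def Ed (n : ℕ) (v u : Pt) : Finset (List Pt) :=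
  (W n).filter fun L => (∀ q ∈ L, ph v q ≤ 0) ∧ ∃ p ∈ L.getLast?, ∀ q ∈ L, ph u q ≤ ph u p

theorem mem_Ed {n : ℕ} {v u : Pt} {L : List Pt} : L ∈ Ed n v u ↔ (L.length = n + 1 ∧
    L.head? = some 0 ∧ L.IsChain nb ∧ L.Nodup) ∧ (∀ q ∈ L, ph v q ≤ 0) ∧
    ∃ p ∈ L.getLast?, ∀ q ∈ L, ph u q ≤ ph u p := by
  rw [Ed, Finset.mem_filter, mem_W]

/-- rotation -/
def rot (p : Pt) : Pt := (-p.2, p.1)

/-- reflection -/
def ref (p : Pt) : Pt := (-p.1, p.2)

lemma rot_inj : Function.Injective rot := by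
  rintro ⟨a, b⟩ ⟨c, d⟩ h
  simp only [rot, Prod.mk.injEq] at h ⊢
  omega

lemma ref_inj : Function.Injective ref := by
  rintro ⟨a, b⟩ ⟨c, d⟩ h
  simp only [ref, Prod.mk.injEq] at h ⊢
  omega

lemma nb_rot {p q : Pt} (h : nb p q) : nb (rot p) (rot q) := by
  rw [nb_iff] at h ⊢
  obtain ⟨a, b⟩ := p
  obtain ⟨c, d⟩ := q
  simp only [rot, Prod.mk.injEq] at h ⊢
  omega

lemma nb_ref {p q : Pt} (h : nb p q) : nb (ref p) (ref q) := by
  rw [nb_iff] at h ⊢
  obtain ⟨a, b⟩ := p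
  obtain ⟨c, d⟩ := q
  simp only [ref, Prod.mk.injEq] at h ⊢
  omega

lemma ph_rot (v p : Pt) : ph (rot v) (rot p) = ph v p := by
  unfold ph rot
  ring

lemma ph_ref (v p : Pt) : ph (ref v) (ref p) = ph v p := by
  unfold ph ref
  ring

/-- a lattice symmetry maps walks to walks -/
lemma map_mem_W {g : Pt → Pt} (hg : Function.Injective g) (h0 : g 0 = 0)
    (hnb : ∀ p q, nb p q → nb (g p) (g q)) {n : ℕ} {L : List Pt} (hL : L.length = n + 1 ∧
    L.head? = some 0 ∧ L.IsChain nb ∧ L.Nodup) : (L.map g).length = n + 1 ∧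
    (L.map g).head? = some 0 ∧ (L.map g).IsChain nb ∧ (L.map g).Nodup := by
  obtain ⟨h1, h2, h3, h4⟩ := hL
  refine ⟨by rw [List.length_map, h1], ?_, ?_, h4.map hg⟩
  · rw [List.head?_map, h2]
    simp [h0]
  · rw [List.isChain_map]
    exact h3.imp fun a b hab => hnb a b hab

lemma card_Ed_le {g : Pt → Pt} (hg : Function.Injective g) (h0 : g 0 = 0)
    (hnb : ∀ p q, nb p q → nb (g p) (g q)) (hph : ∀ v p, ph (g v) (g p) = ph v p)
    (n : ℕ) (v u : Pt) : (Ed n v u).card ≤ (Ed n (g v) (g u)).card := by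
  refine Finset.card_le_card_of_injOn (List.map g) ?_ ?_
  · intro L hL
    rw [Finset.mem_coe, mem_Ed] at hL ⊢
    obtain ⟨h1, h2, p, hp, h3⟩ := hL
    refine ⟨map_mem_W hg h0 hnb h1, ?_, g p, ?_, ?_⟩
    · intro q hq
      obtain ⟨q', hq', rfl⟩ := List.mem_map.1 hq
      rw [hph]
      exact h2 q' hq'
    · rw [List.getLast?_map, Option.mem_def.1 hp]
      rfl
    · intro q hq
      obtain ⟨q', hq', rfl⟩ := List.mem_map.1 hq
      rw [hph, hph]
      exact h3 q' hq'
  · intro L _ M _ h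
    exact List.map_injective_iff.2 hg h

lemma card_Ed_rot (n : ℕ) (v u : Pt) : (Ed n v u).card ≤ (Ed n (rot v) (rot u)).card :=
  card_Ed_le rot_inj rfl (fun _ _ => nb_rot) ph_rot n v u

lemma card_Ed_ref (n : ℕ) (v u : Pt) : (Ed n v u).card ≤ (Ed n (ref v) (ref u)).card :=
  card_Ed_le ref_inj rfl (fun _ _ => nb_ref) ph_ref n v u

/-- arcs, crossings, corner walks -/
noncomputable def Ar (n : ℕ) : Finset (List Pt) := Ed n (0, -1) (0, -1)
noncomputable def Cr (n : ℕ) : Finset (List Pt) := Ed n (0, -1) (0, 1)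
noncomputable def Co (n : ℕ) : Finset (List Pt) := Ed n (0, -1) (1, 0)

/-- the four directions -/
def ds : Finset Pt := {(0, -1), (0, 1), (1, 0), (-1, 0)}

lemma card_down (n : ℕ) {u : Pt} (hu : u ∈ ds) :
    (Ed n (0, -1) u).card ≤ (Ar n).card + (Cr n).card + (Co n).card := by
  simp only [ds, Finset.mem_insert, Finset.mem_singleton] at hu
  unfold Ar Cr Co
  rcases hu with rfl | rfl | rfl | rfl
  · omega
  · omega
  · omega
  · have h := card_Ed_ref n (0, -1) (-1, 0)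
    have e1 : ref (0, -1) = (0, -1) := by simp [ref]
    have e2 : ref (-1, 0) = (1, 0) := by simp [ref]
    rw [e1, e2] at h
    omega

lemma rot_ds {u : Pt} (hu : u ∈ ds) : rot u ∈ ds := by
  simp only [ds, Finset.mem_insert, Finset.mem_singleton] at hu ⊢
  rcases hu with rfl | rfl | rfl | rfl <;> simp [rot]

lemma card_all (n : ℕ) {v u : Pt} (hv : v ∈ ds) (hu : u ∈ ds) :
    (Ed n v u).card ≤ (Ar n).card + (Cr n).card + (Co n).card := by
  have h1 : ∀ u ∈ ds, (Ed n (-1, 0) u).card ≤ (Ar n).card + (Cr n).card + (Co n).card := by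
    intro u hu
    refine (card_Ed_rot n _ _).trans ?_
    have e : rot (-1, 0) = (0, -1) := by simp [rot]
    rw [e]
    exact card_down n (rot_ds hu)
  have h2 : ∀ u ∈ ds, (Ed n (0, 1) u).card ≤ (Ar n).card + (Cr n).card + (Co n).card := by
    intro u hu
    refine (card_Ed_rot n _ _).trans ?_
    have e : rot (0, 1) = (-1, 0) := by simp [rot]
    rw [e]
    exact h1 _ (rot_ds hu)
  have h3 : ∀ u ∈ ds, (Ed n (1, 0) u).card ≤ (Ar n).card + (Cr n).card + (Co n).card := by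
    intro u hu
    refine (card_Ed_rot n _ _).trans ?_
    have e : rot (1, 0) = (0, 1) := by simp [rot]
    rw [e]
    exact h2 _ (rot_ds hu)
  simp only [ds, Finset.mem_insert, Finset.mem_singleton] at hv
  rcases hv with rfl | rfl | rfl | rfl
  · exact card_down n hu
  · exact h2 u hu
  · exact h3 u hu
  · exact h1 u hu

/-- walks with both end points on the boundary of the bounding box -/
noncomputable def E (n : ℕ) : Finset (List Pt) :=
  (W n).filter fun L => (∃ v ∈ ds, ∀ q ∈ L, ph v q ≤ 0) ∧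
    ∃ u ∈ ds, ∃ p ∈ L.getLast?, ∀ q ∈ L, ph u q ≤ ph u p

lemma mem_E {n : ℕ} {L : List Pt} : L ∈ E n ↔ (L.length = n + 1 ∧
    L.head? = some 0 ∧ L.IsChain nb ∧ L.Nodup) ∧ (∃ v ∈ ds, ∀ q ∈ L, ph v q ≤ 0) ∧
    ∃ u ∈ ds, ∃ p ∈ L.getLast?, ∀ q ∈ L, ph u q ≤ ph u p := by
  rw [E, Finset.mem_filter, mem_W]

theorem card_E_le (n : ℕ) : (E n).card ≤ 16 * ((Ar n).card + (Cr n).card + (Co n).card) := by
  classical
  have hsub : E n ⊆ (ds ×ˢ ds).biUnion fun x => Ed n x.1 x.2 := by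
    intro L hL
    rw [mem_E] at hL
    obtain ⟨h1, ⟨v, hv, h2⟩, u, hu, h3⟩ := hL
    rw [Finset.mem_biUnion]
    exact ⟨(v, u), Finset.mem_product.2 ⟨hv, hu⟩, mem_Ed.2 ⟨h1, h2, h3⟩⟩
  refine (Finset.card_le_card hsub).trans ?_
  refine (Finset.card_biUnion_le_card_mul _ _
    ((Ar n).card + (Cr n).card + (Co n).card) ?_).trans ?_
  · rintro ⟨v, u⟩ h
    rw [Finset.mem_product] at h
    exact card_all n h.1 h.2
  · apply Nat.mul_le_mul_right
    rw [Finset.card_product]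
    decide

/-- Cauchy-Schwarz for the fibres of a map -/
theorem sq_card_le {α ι : Type*} [DecidableEq ι] (S : Finset α) (f : α → ι)
    (T : Finset ι) (h : ∀ a ∈ S, f a ∈ T) :
    S.card ^ 2 ≤ T.card * ((S ×ˢ S).filter fun x => f x.1 = f x.2).card := by
  have h1 : S.card = ∑ t ∈ T, (S.filter fun a => f a = t).card :=
    Finset.card_eq_sum_card_fiberwise h
  have h2 : ((S ×ˢ S).filter fun x => f x.1 = f x.2).card =
      ∑ t ∈ T, (S.filter fun a => f a = t).card ^ 2 := by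
    rw [Finset.card_eq_sum_card_fiberwise (f := fun x => f x.1) (t := T)]
    · refine Finset.sum_congr rfl fun t _ => ?_
      rw [pow_two, ← Finset.card_product]
      congr 1
      ext ⟨a, b⟩
      simp only [Finset.mem_filter, Finset.mem_product]
      constructor
      · rintro ⟨⟨⟨ha, hb⟩, hab⟩, hat⟩
        exact ⟨⟨ha, hat⟩, hb, hab.symm.trans hat⟩
      · rintro ⟨⟨ha, hat⟩, hb, hbt⟩
        exact ⟨⟨⟨ha, hb⟩, hat.trans hbt.symm⟩, hat⟩
    · rintro ⟨a, b⟩ hab
      rw [Finset.mem_coe, Finset.mem_filter, Finset.mem_product] at hab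
      exact h a hab.1.1
  rw [h1, h2]
  exact sq_sum_le_card_mul_sum_sq

end Pool.Agent.SawBox
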