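import Pool.Agent.SawBox.Block
import Pool.Agent.SawBox.Corner

/-!
Lower bounds in blocks of lengths.
-/

set_option autoImplicit false

open Pool.Agent.SawKes Pool.Agent.SawPoly Pool.Agent.SawStrip Pool.Agent.SawLim

namespace Pool.Agent.SawBox

/-- stability of the number of polygons -/
theorem PG_block (δ : ℝ) (hδ : 0 < δ) (hδ' : δ < 1 / 2) : ∃ n₀ : ℕ, ∀ N : ℕ, n₀ ≤ N → Odd N →
    ∀ k : ℕ, 2 * (k : ℝ) ≤ (N : ℝ) ^ (1 / 2 - δ) →
      ((PG N).card : ℝ) * mu ^ (2 * k) ≤ 2 * ((PG (N + 2 * k)).card : ℝ) := by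
  obtain ⟨C, hC, n₁, h⟩ := PG_ratio (δ / 2) (by linarith) (by linarith)
  have hmu := mu_pos
  have hlim : Filter.Tendsto (fun x : ℝ => x ^ (-(δ / 2))) Filter.atTop (nhds 0) :=
    tendsto_rpow_neg_atTop (by linarith)
  have hlim' := (hlim.comp tendsto_natCast_atTop_atTop).eventually
    (ge_mem_nhds (show (0 : ℝ) < 1 / (2 * C) by positivity))
  obtain ⟨n₂, hn₂⟩ := Filter.eventually_atTop.1 hlim'
  refine ⟨max (max n₁ n₂) 1, fun N hN hodd k hk => ?_⟩
  have hN1 : n₁ ≤ N := (le_max_left _ _).trans ((le_max_left _ _).trans hN)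
  have hN2 : n₂ ≤ N := (le_max_right _ _).trans ((le_max_left _ _).trans hN)
  have hN3 : 1 ≤ N := (le_max_right _ _).trans hN
  have hNr : (1 : ℝ) ≤ N := by exact_mod_cast hN3
  obtain ⟨x, hx⟩ : ∃ x : ℝ, x = C * (N : ℝ) ^ (δ / 2 - 1 / 2) := ⟨_, rfl⟩
  have hx0 : 0 ≤ x := by
    rw [hx]
    positivity
  have hkx : (k : ℝ) * x ≤ 1 / 4 := by
    have h1 : (N : ℝ) ^ (-(δ / 2)) ≤ 1 / (2 * C) := hn₂ N hN2
    have h2 : (N : ℝ) ^ (1 / 2 - δ) * (N : ℝ) ^ (δ / 2 - 1 / 2) = (N : ℝ) ^ (-(δ / 2)) := by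
      rw [← Real.rpow_add (by linarith)]
      congr 1
      ring
    have h3 : 2 * ((k : ℝ) * x) ≤ 1 / 2 := by
      calc 2 * ((k : ℝ) * x) = (2 * (k : ℝ)) * (C * (N : ℝ) ^ (δ / 2 - 1 / 2)) := by rw [hx]; ring
        _ ≤ (N : ℝ) ^ (1 / 2 - δ) * (C * (N : ℝ) ^ (δ / 2 - 1 / 2)) := by
            apply mul_le_mul_of_nonneg_right hk (by positivity)
        _ = C * (N : ℝ) ^ (-(δ / 2)) := by rw [← h2]; ring
        _ ≤ C * (1 / (2 * C)) := mul_le_mul_of_nonneg_left h1 hC.le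
        _ = 1 / 2 := by field_simp
    linarith
  rcases Nat.eq_zero_or_pos k with hk0 | hk0
  · subst hk0
    have : (0 : ℝ) ≤ ((PG N).card : ℝ) := Nat.cast_nonneg _
    simp only [Nat.mul_zero, pow_zero, mul_one, add_zero]
    linarith
  have hx1 : x ≤ 1 / 4 := by
    have : (1 : ℝ) ≤ k := by exact_mod_cast hk0
    nlinarith
  have step : ∀ j : ℕ, ((PG N).card : ℝ) * (mu ^ 2 * (1 - x)) ^ j ≤
      ((PG (N + 2 * j)).card : ℝ) := by
    intro j
    induction j with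
    | zero => simp
    | succ j ih =>
      have h1 := h (N + 2 * j) (by omega) (by
        obtain ⟨m, hm⟩ := hodd
        exact ⟨m + j, by omega⟩)
      have h2 : ((N + 2 * j : ℕ) : ℝ) ^ (δ / 2 - 1 / 2) ≤ (N : ℝ) ^ (δ / 2 - 1 / 2) := by
        apply Real.rpow_le_rpow_of_nonpos (by linarith)
        · push_cast
          have : (0 : ℝ) ≤ j := Nat.cast_nonneg j
          linarith
        · linarith
      have h3 : (0 : ℝ) ≤ mu ^ 2 * ((PG (N + 2 * j)).card : ℝ) := by positivity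
      have h4 : C * ((N + 2 * j : ℕ) : ℝ) ^ (δ / 2 - 1 / 2) *
          (mu ^ 2 * ((PG (N + 2 * j)).card : ℝ)) ≤ x * (mu ^ 2 * ((PG (N + 2 * j)).card : ℝ)) := by
        apply mul_le_mul_of_nonneg_right _ h3
        rw [hx]
        exact mul_le_mul_of_nonneg_left h2 hC.le
      have h5 := (abs_le.1 (h1.trans h4)).1
      have h6 : mu ^ 2 * (1 - x) * ((PG (N + 2 * j)).card : ℝ) ≤
          ((PG (N + 2 * j + 2)).card : ℝ) := by linarith
      calc ((PG N).card : ℝ) * (mu ^ 2 * (1 - x)) ^ (j + 1)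
          = mu ^ 2 * (1 - x) * (((PG N).card : ℝ) * (mu ^ 2 * (1 - x)) ^ j) := by ring
        _ ≤ mu ^ 2 * (1 - x) * ((PG (N + 2 * j)).card : ℝ) := by
            apply mul_le_mul_of_nonneg_left ih
            have : 0 ≤ 1 - x := by linarith
            positivity
        _ ≤ _ := h6
  have h1 := step k
  have h2 : 1 + (k : ℝ) * (-x) ≤ (1 + -x) ^ k := one_add_mul_le_pow (by linarith) k
  have h3 : (1 / 2 : ℝ) ≤ (1 - x) ^ k := by
    have : (1 - x) ^ k = (1 + -x) ^ k := by rw [sub_eq_add_neg]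
    rw [this]
    linarith
  have h4 : (0 : ℝ) ≤ ((PG N).card : ℝ) * mu ^ (2 * k) := by positivity
  calc ((PG N).card : ℝ) * mu ^ (2 * k) = 2 * (((PG N).card : ℝ) * mu ^ (2 * k) * (1 / 2)) := by ring
    _ ≤ 2 * (((PG N).card : ℝ) * mu ^ (2 * k) * (1 - x) ^ k) := by
        apply mul_le_mul_of_nonneg_left _ (by norm_num)
        exact mul_le_mul_of_nonneg_left h3 h4
    _ = 2 * (((PG N).card : ℝ) * (mu ^ 2 * (1 - x)) ^ k) := by rw [mul_pow, ← pow_mul]; ring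
    _ ≤ _ := mul_le_mul_of_nonneg_left h1 (by norm_num)

/-- an arc which reaches the height `h` has at least `h` steps -/
lemma le_of_A {n : ℕ} {m h : ℤ} {L : List Pt} (hL : L ∈ A n m h) : h ≤ n := by
  rw [mem_A] at hL
  obtain ⟨⟨l1, l2, l3, -⟩, -, -, p, hp, hph⟩ := hL
  exact hph.trans (bnd2 l1 l2 l3 hp)

end Pool.Agent.SawBox
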