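import Pool.Agent.SawBox.Lower

/-!
Lower bounds in blocks of lengths.
-/

set_option autoImplicit false

open Pool.Agent.SawKes Pool.Agent.SawPoly Pool.Agent.SawStrip Pool.Agent.SawLim

namespace Pool.Agent.SawBox

open Filter in
/-- elementary inequalities for large numbers -/
lemma numeric (ε δ c : ℝ) (hε : 0 < ε) (hδ : 0 < δ) (hδ' : δ < 1 / 2) : ∃ n₀ : ℕ, ∀ n : ℕ, n₀ ≤ n →
    4 * (n : ℝ) ^ (2 + ε / 2) + 10 ≤ (n : ℝ) ^ (2 + ε) ∧
    3 + ((n : ℝ) + 3) ^ (1 / 2 - δ) ≤ (n : ℝ) ^ (1 / 2 - δ / 2) ∧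
    c * ((n : ℝ) + 1) ≤ (n : ℝ) ^ 3 := by
  have h1 : Tendsto (fun x : ℝ => x ^ (ε / 2)) atTop atTop := tendsto_rpow_atTop (by linarith)
  have h2 : Tendsto (fun x : ℝ => x ^ (δ / 2)) atTop atTop := tendsto_rpow_atTop (by linarith)
  have hev : ∀ᶠ x : ℝ in atTop, 14 ≤ x ^ (ε / 2) ∧ 7 ≤ x ^ (δ / 2) ∧ max 3 (2 * |c|) ≤ x := by
    filter_upwards [h1.eventually_ge_atTop 14, h2.eventually_ge_atTop 7,
      eventually_ge_atTop (max 3 (2 * |c|))] with x a b d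
    exact ⟨a, b, d⟩
  have hev' := tendsto_natCast_atTop_atTop.eventually hev
  rw [eventually_atTop] at hev'
  obtain ⟨n₀, hn₀⟩ := hev'
  refine ⟨n₀, fun n hn => ?_⟩
  obtain ⟨a, b, d⟩ := hn₀ n hn
  have d1 : (3 : ℝ) ≤ n := (le_max_left _ _).trans d
  have d2 : 2 * |c| ≤ (n : ℝ) := (le_max_right _ _).trans d
  have n0 : (0 : ℝ) < n := by linarith
  refine ⟨?_, ?_, ?_⟩
  · have e1 : (n : ℝ) ^ (2 + ε) = (n : ℝ) ^ (2 + ε / 2) * (n : ℝ) ^ (ε / 2) := by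
      rw [← Real.rpow_add n0]
      congr 1
      ring
    have e2 : (1 : ℝ) ≤ (n : ℝ) ^ (2 + ε / 2) := Real.one_le_rpow (by linarith) (by linarith)
    rw [e1]
    nlinarith
  · have e1 : (n : ℝ) ^ (1 / 2 - δ / 2) = (n : ℝ) ^ (1 / 2 - δ) * (n : ℝ) ^ (δ / 2) := by
      rw [← Real.rpow_add n0]
      congr 1
      ring
    have e2 : (1 : ℝ) ≤ (n : ℝ) ^ (1 / 2 - δ) := Real.one_le_rpow (by linarith) (by linarith)
    have e3 : ((n : ℝ) + 3) ^ (1 / 2 - δ) ≤ 2 * (n : ℝ) ^ (1 / 2 - δ) := by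
      calc ((n : ℝ) + 3) ^ (1 / 2 - δ) ≤ (2 * (n : ℝ)) ^ (1 / 2 - δ) :=
            Real.rpow_le_rpow (by linarith) (by linarith) (by linarith)
        _ = 2 ^ (1 / 2 - δ) * (n : ℝ) ^ (1 / 2 - δ) := Real.mul_rpow (by norm_num) n0.le
        _ ≤ 2 ^ (1 : ℝ) * (n : ℝ) ^ (1 / 2 - δ) := by
            apply mul_le_mul_of_nonneg_right _ (by positivity)
            exact Real.rpow_le_rpow_of_exponent_le (by norm_num) (by linarith)
        _ = 2 * (n : ℝ) ^ (1 / 2 - δ) := by rw [Real.rpow_one]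
    rw [e1]
    nlinarith
  · have e1 : c * ((n : ℝ) + 1) ≤ |c| * (2 * n) := by
      have := le_abs_self c
      have h0 := abs_nonneg c
      nlinarith
    have e2 : |c| * (2 * n) ≤ (n : ℝ) * n := by nlinarith
    have e3 : (n : ℝ) * n ≤ (n : ℝ) ^ 3 := by
      have : (n : ℝ) ^ 3 = n * n * n := by ring
      rw [this]
      nlinarith [mul_pos n0 n0]
    linarith

theorem lower : ∃ C : ℕ, ∀ ε δ : ℝ, 0 < ε → ε ≤ 1 → 0 < δ → δ < 1 / 2 → ∃ N₀ : ℕ, ∀ N : ℕ,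
    N₀ ≤ N → ∃ M : ℕ, N ≤ M ∧ (M : ℝ) ≤ (N : ℝ) ^ (2 + ε) ∧
      ∀ n : ℕ, M ≤ n → (n : ℝ) ≤ M + (M : ℝ) ^ (1 / 2 - δ) →
        mu ^ n ≤ (n : ℝ) ^ C * ((Ar n).card : ℝ) ∧
        (Odd n → mu ^ n ≤ (n : ℝ) ^ C * ((PG n).card : ℝ)) := by
  obtain ⟨C₀, hw⟩ := arcs_window
  have hmu := mu_pos
  have hmu1 := one_le_mu
  refine ⟨C₀ + 3, fun ε δ hε hε1 hδ hδ1 => ?_⟩
  obtain ⟨Q, hQ2, hQ⟩ := hw (ε / 2) (by linarith) (by linarith)
  obtain ⟨n₁, hb⟩ := PG_block (δ / 2) (by linarith) (by linarith)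
  obtain ⟨n₂, hnum⟩ := numeric ε δ (16 * mu ^ 3) hε hδ hδ1
  refine ⟨max (max Q n₁) (max n₂ 2), fun N hN => ?_⟩
  have hNQ : Q ≤ N := (le_max_left _ _).trans ((le_max_left _ _).trans hN)
  have hNn1 : n₁ ≤ N := (le_max_right _ _).trans ((le_max_left _ _).trans hN)
  have hNn2 : n₂ ≤ N := (le_max_left _ _).trans ((le_max_right _ _).trans hN)
  have hN2 : 2 ≤ N := (le_max_right _ _).trans ((le_max_right _ _).trans hN)
  obtain ⟨N₁, hN₁, hA⟩ := hQ N hNQ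
  have hA0 : (0 : ℝ) < ((A N₁ 1 N).card : ℝ) := by
    by_contra hcon
    have h0 : ((A N₁ 1 N).card : ℝ) = 0 := le_antisymm (not_lt.1 hcon) (Nat.cast_nonneg _)
    rw [h0, mul_zero] at hA
    exact absurd hA (not_le.2 (pow_pos hmu _))
  have hAne : (A N₁ 1 N).Nonempty := Finset.card_pos.1 (by exact_mod_cast hA0)
  obtain ⟨L, hL⟩ := hAne
  have hNN : N ≤ N₁ := by exact_mod_cast le_of_A hL
  have hodd : Odd N₁ := by
    by_contra hcon
    have h1 := PG_even (Nat.not_odd_iff_even.1 hcon)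
    have h2 := A_sub_PG N₁ N hL
    rw [h1] at h2
    exact absurd h2 (Finset.notMem_empty _)
  have hAP : ((A N₁ 1 N).card : ℝ) ≤ ((PG N₁).card : ℝ) := by
    exact_mod_cast Finset.card_le_card (A_sub_PG N₁ N)
  have hNr : (2 : ℝ) ≤ N := by exact_mod_cast hN2
  -- the basic estimate for the odd lengths
  have key : ∀ n : ℕ, N₁ ≤ n → Odd n → (n : ℝ) ≤ N₁ + (N₁ : ℝ) ^ (1 / 2 - δ / 2) →
      mu ^ n ≤ 2 * (n : ℝ) ^ C₀ * ((PG n).card : ℝ) := by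
    intro n hn hno hn'
    obtain ⟨k, hk⟩ : ∃ k, n = N₁ + 2 * k := by
      obtain ⟨a, ha⟩ := hodd
      obtain ⟨b, hb⟩ := hno
      exact ⟨b - a, by omega⟩
    have h1 := hb N₁ (hNn1.trans hNN) hodd k (by
      rw [hk] at hn'
      push_cast at hn'
      linarith)
    rw [← hk] at h1
    have hnN : (N : ℝ) ≤ n := by exact_mod_cast hNN.trans hn
    calc mu ^ n = mu ^ N₁ * mu ^ (2 * k) := by rw [hk, pow_add]
      _ ≤ ((N : ℝ) ^ C₀ * ((A N₁ 1 N).card : ℝ)) * mu ^ (2 * k) :=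
          mul_le_mul_of_nonneg_right hA (by positivity)
      _ ≤ ((N : ℝ) ^ C₀ * ((PG N₁).card : ℝ)) * mu ^ (2 * k) := by
          apply mul_le_mul_of_nonneg_right _ (by positivity)
          exact mul_le_mul_of_nonneg_left hAP (by positivity)
      _ = (N : ℝ) ^ C₀ * (((PG N₁).card : ℝ) * mu ^ (2 * k)) := by ring
      _ ≤ (N : ℝ) ^ C₀ * (2 * ((PG n).card : ℝ)) := mul_le_mul_of_nonneg_left h1 (by positivity)
      _ = 2 * (N : ℝ) ^ C₀ * ((PG n).card : ℝ) := by ring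
      _ ≤ 2 * (n : ℝ) ^ C₀ * ((PG n).card : ℝ) := by
          apply mul_le_mul_of_nonneg_right _ (Nat.cast_nonneg _)
          apply mul_le_mul_of_nonneg_left _ (by norm_num)
          exact pow_le_pow_left₀ (by linarith) hnN C₀
  have key2 : ∀ n : ℕ, N₁ ≤ n → Odd n → (n : ℝ) ≤ N₁ + (N₁ : ℝ) ^ (1 / 2 - δ / 2) →
      mu ^ n ≤ 16 * ((n : ℝ) + 1) * (n : ℝ) ^ C₀ * ((A n 1 0).card : ℝ) := by
    intro n hn hno hn'
    have h1 := key n hn hno hn'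
    have h2 : ((PG n).card : ℝ) ≤ 8 * ((n : ℝ) + 1) * ((A n 1 0).card : ℝ) := by
      exact_mod_cast PG_le_Ar (by omega)
    calc mu ^ n ≤ 2 * (n : ℝ) ^ C₀ * ((PG n).card : ℝ) := h1
      _ ≤ 2 * (n : ℝ) ^ C₀ * (8 * ((n : ℝ) + 1) * ((A n 1 0).card : ℝ)) :=
          mul_le_mul_of_nonneg_left h2 (by positivity)
      _ = _ := by ring
  refine ⟨N₁ + 3, by omega, ?_, fun n hn hn' => ?_⟩
  · have h1 := (hnum N hNn2).1
    have h2 : ((N₁ : ℕ) : ℝ) ≤ 4 * ((⌈(N : ℝ) ^ (2 + ε / 2)⌉₊ : ℕ) : ℝ) + 3 := by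
      exact_mod_cast hN₁
    have h3 : ((⌈(N : ℝ) ^ (2 + ε / 2)⌉₊ : ℕ) : ℝ) < (N : ℝ) ^ (2 + ε / 2) + 1 :=
      Nat.ceil_lt_add_one (by positivity)
    push_cast
    linarith
  · have hN₁n : n₂ ≤ N₁ := hNn2.trans hNN
    have h2 := (hnum N₁ hN₁n).2.1
    have hle : (n : ℝ) ≤ N₁ + (N₁ : ℝ) ^ (1 / 2 - δ / 2) := by
      push_cast at hn'
      linarith
    have h3 := (hnum n (by omega)).2.2
    have hn1 : (1 : ℝ) ≤ n := by
      have : 1 ≤ n := by omega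
      exact_mod_cast this
    have hAr : ∀ a : ℝ, 0 ≤ a → 16 * mu ^ 3 * ((n : ℝ) + 1) * (n : ℝ) ^ C₀ * a ≤
        (n : ℝ) ^ (C₀ + 3) * a := by
      intro a ha
      apply mul_le_mul_of_nonneg_right _ ha
      calc 16 * mu ^ 3 * ((n : ℝ) + 1) * (n : ℝ) ^ C₀ ≤ (n : ℝ) ^ 3 * (n : ℝ) ^ C₀ :=
            mul_le_mul_of_nonneg_right h3 (by positivity)
        _ = _ := by rw [← pow_add, Nat.add_comm]
    have hmu3 : 1 ≤ mu ^ 3 := one_le_pow₀ hmu1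
    constructor
    · rcases Nat.even_or_odd n with he | ho
      · obtain ⟨m, hm⟩ : ∃ m, n = m + 3 := ⟨n - 3, by omega⟩
        have hmo : Odd m := by
          obtain ⟨a, ha⟩ := he
          exact ⟨a - 2, by omega⟩
        have hmr : (m : ℝ) ≤ n := by
          rw [hm]
          push_cast
          linarith
        have h4 := key2 m (by omega) hmo (hmr.trans hle)
        have h5 : ((A m 1 0).card : ℝ) ≤ ((Ar n).card : ℝ) := by
          rw [hm]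
          exact_mod_cast A_le_Ar3 m
        refine le_trans ?_ (hAr _ (Nat.cast_nonneg _))
        calc mu ^ n = mu ^ 3 * mu ^ m := by rw [hm, pow_add, mul_comm]
          _ ≤ mu ^ 3 * (16 * ((m : ℝ) + 1) * (m : ℝ) ^ C₀ * ((A m 1 0).card : ℝ)) :=
              mul_le_mul_of_nonneg_left h4 (by positivity)
          _ ≤ mu ^ 3 * (16 * ((n : ℝ) + 1) * (n : ℝ) ^ C₀ * ((Ar n).card : ℝ)) := by
              apply mul_le_mul_of_nonneg_left _ (by positivity)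
              have h6 : (m : ℝ) ^ C₀ ≤ (n : ℝ) ^ C₀ := pow_le_pow_left₀ (Nat.cast_nonneg _) hmr _
              gcongr
          _ = _ := by ring
      · have h4 := key2 n (by omega) ho hle
        have h5 : ((A n 1 0).card : ℝ) ≤ ((Ar n).card : ℝ) := by
          exact_mod_cast Finset.card_le_card (A_sub_Ar n 1 0)
        refine le_trans ?_ (hAr _ (Nat.cast_nonneg _))
        calc mu ^ n ≤ 16 * ((n : ℝ) + 1) * (n : ℝ) ^ C₀ * ((A n 1 0).card : ℝ) := h4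
          _ ≤ 16 * ((n : ℝ) + 1) * (n : ℝ) ^ C₀ * ((Ar n).card : ℝ) :=
              mul_le_mul_of_nonneg_left h5 (by positivity)
          _ = 1 * (16 * ((n : ℝ) + 1) * (n : ℝ) ^ C₀ * ((Ar n).card : ℝ)) := by ring
          _ ≤ mu ^ 3 * (16 * ((n : ℝ) + 1) * (n : ℝ) ^ C₀ * ((Ar n).card : ℝ)) :=
              mul_le_mul_of_nonneg_right hmu3 (by positivity)
          _ = _ := by ring
    · intro ho
      have h4 := key n (by omega) ho hle
      refine le_trans ?_ (hAr _ (Nat.cast_nonneg _))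
      have h5 : (2 : ℝ) ≤ 16 * mu ^ 3 * ((n : ℝ) + 1) := by nlinarith
      calc mu ^ n ≤ 2 * (n : ℝ) ^ C₀ * ((PG n).card : ℝ) := h4
        _ ≤ (16 * mu ^ 3 * ((n : ℝ) + 1)) * (n : ℝ) ^ C₀ * ((PG n).card : ℝ) := by
            apply mul_le_mul_of_nonneg_right _ (Nat.cast_nonneg _)
            exact mul_le_mul_of_nonneg_right h5 (by positivity)

end Pool.Agent.SawBox
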