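import Pool.Agent.SawBox.Corner
import Pool.Agent.SawBox.Bridge
import Pool.Agent.SawPoly.Final

/-!
Upper bounds.
-/

set_option autoImplicit false

open Pool.Agent.SawKes Pool.Agent.SawPoly Pool.Agent.SawStrip Pool.Agent.SawLim

namespace Pool.Agent.SawBox

theorem Ar_sq_le (n : ℕ) : ((Ar n).card : ℝ) ^ 2 ≤ r (2 * n + 1) * mu ^ (2 * n + 1) := by
  have h1 : ((Ar n).card : ℝ) ^ 2 ≤ (2 * n + 1) * ((SP n).card : ℝ) := by
    exact_mod_cast sq_Ar_le n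
  have h2 : ((2 : ℝ) * n + 2) * ((SP n).card : ℝ) ≤ ((PG (2 * n + 1)).card : ℝ) := by
    exact_mod_cast SP_le n
  have h3 : r (2 * n + 1) * mu ^ (2 * n + 1) = ((PG (2 * n + 1)).card : ℝ) := by
    unfold r
    rw [div_mul_cancel₀]
    exact (pow_pos mu_pos _).ne'
  rw [h3]
  have h4 : (0 : ℝ) ≤ ((SP n).card : ℝ) := Nat.cast_nonneg _
  nlinarith

theorem Ar_le (δ : ℝ) (hδ : 0 < δ) : ∃ C : ℝ, 0 < C ∧ ∀ n : ℕ, 1 ≤ n →
    ((Ar n).card : ℝ) ≤ C * (n : ℝ) ^ δ * mu ^ n := by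
  obtain ⟨C, hC, h⟩ := r_bound δ hδ
  have hmu := mu_pos
  refine ⟨Real.sqrt (C * 3 ^ δ * mu), by positivity, fun n hn => ?_⟩
  have hn1 : (1 : ℝ) ≤ n := by exact_mod_cast hn
  have h1 := Ar_sq_le n
  have h2 := h (2 * n + 1) (by omega)
  have h3 : (((2 * n + 1 : ℕ) : ℝ)) ^ δ ≤ 3 ^ δ * (n : ℝ) ^ δ := by
    rw [← Real.mul_rpow (by norm_num) (by linarith)]
    apply Real.rpow_le_rpow (by positivity) _ hδ.le
    push_cast
    linarith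
  have h4 : ((Ar n).card : ℝ) ^ 2 ≤ (C * 3 ^ δ * mu) * (n : ℝ) ^ δ * (mu ^ n) ^ 2 := by
    refine h1.trans ?_
    calc r (2 * n + 1) * mu ^ (2 * n + 1)
        ≤ (C * (3 ^ δ * (n : ℝ) ^ δ)) * mu ^ (2 * n + 1) := by
          apply mul_le_mul_of_nonneg_right _ (by positivity)
          exact h2.trans (mul_le_mul_of_nonneg_left h3 hC.le)
      _ = _ := by ring
  have h5 : (n : ℝ) ^ δ ≤ ((n : ℝ) ^ δ) ^ 2 := by
    have : 1 ≤ (n : ℝ) ^ δ := Real.one_le_rpow hn1 hδ.le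
    nlinarith
  have h6 : ((Ar n).card : ℝ) ^ 2 ≤ (Real.sqrt (C * 3 ^ δ * mu) * (n : ℝ) ^ δ * mu ^ n) ^ 2 := by
    rw [mul_pow, mul_pow, Real.sq_sqrt (by positivity)]
    refine h4.trans ?_
    apply mul_le_mul_of_nonneg_right _ (by positivity)
    exact mul_le_mul_of_nonneg_left h5 (by positivity)
  exact (sq_le_sq₀ (Nat.cast_nonneg _) (by positivity)).1 h6

theorem Co_le (δ : ℝ) (hδ : 0 < δ) : ∃ C : ℝ, 0 < C ∧ ∀ n : ℕ, 1 ≤ n →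
    ((Co n).card : ℝ) ≤ C * (n : ℝ) ^ (1 / 2 + δ) * mu ^ n := by
  obtain ⟨C, hC, h⟩ := Ar_le (2 * δ) (by linarith)
  have hmu := mu_pos
  refine ⟨Real.sqrt (2 * C * 3 ^ (2 * δ) * mu), by positivity, fun n hn => ?_⟩
  have hn1 : (1 : ℝ) ≤ n := by exact_mod_cast hn
  have h1 : ((Co n).card : ℝ) ^ 2 ≤ (n + 1) * ((Ar (2 * n + 1)).card : ℝ) := by
    exact_mod_cast sq_Co_le n
  have h2 := h (2 * n + 1) (by omega)
  have h3 : (((2 * n + 1 : ℕ) : ℝ)) ^ (2 * δ) ≤ 3 ^ (2 * δ) * (n : ℝ) ^ (2 * δ) := by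
    rw [← Real.mul_rpow (by norm_num) (by linarith)]
    apply Real.rpow_le_rpow (by positivity) _ (by linarith)
    push_cast
    linarith
  have h4 : ((Co n).card : ℝ) ^ 2 ≤
      (2 * C * 3 ^ (2 * δ) * mu) * ((n : ℝ) * (n : ℝ) ^ (2 * δ)) * (mu ^ n) ^ 2 := by
    refine h1.trans ?_
    calc ((n : ℝ) + 1) * ((Ar (2 * n + 1)).card : ℝ)
        ≤ (2 * n) * (C * (3 ^ (2 * δ) * (n : ℝ) ^ (2 * δ)) * mu ^ (2 * n + 1)) := by
          apply mul_le_mul (by linarith) _ (Nat.cast_nonneg _) (by positivity)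
          refine h2.trans ?_
          apply mul_le_mul_of_nonneg_right _ (by positivity)
          exact mul_le_mul_of_nonneg_left h3 hC.le
      _ = _ := by ring
  have h5 : ((n : ℝ) ^ (1 / 2 + δ)) ^ 2 = (n : ℝ) * (n : ℝ) ^ (2 * δ) := by
    rw [← Real.rpow_natCast, ← Real.rpow_mul (by linarith)]
    have : (1 / 2 + δ) * ((2 : ℕ) : ℝ) = 1 + 2 * δ := by push_cast; ring
    rw [this, Real.rpow_add (by linarith), Real.rpow_one]
  have h6 : ((Co n).card : ℝ) ^ 2 ≤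
      (Real.sqrt (2 * C * 3 ^ (2 * δ) * mu) * (n : ℝ) ^ (1 / 2 + δ) * mu ^ n) ^ 2 := by
    rw [mul_pow, mul_pow, Real.sq_sqrt (by positivity), h5]
    exact h4
  exact (sq_le_sq₀ (Nat.cast_nonneg _) (by positivity)).1 h6

/-- upper bound for the walks with both end points on the boundary of the bounding box -/
theorem E_le (δ : ℝ) (hδ : 0 < δ) : ∃ C : ℝ, 0 < C ∧ ∀ n : ℕ, 1 ≤ n →
    ((E n).card : ℝ) ≤ C * (n : ℝ) ^ (1 / 2 + δ) * mu ^ n := by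
  obtain ⟨C₁, hC₁, h₁⟩ := Ar_le δ hδ
  obtain ⟨C₂, hC₂, h₂⟩ := Co_le δ hδ
  have hmu := mu_pos
  refine ⟨16 * (C₁ + mu + C₂), by positivity, fun n hn => ?_⟩
  have hn1 : (1 : ℝ) ≤ n := by exact_mod_cast hn
  have h3 : ((E n).card : ℝ) ≤
      16 * (((Ar n).card : ℝ) + ((Cr n).card : ℝ) + ((Co n).card : ℝ)) := by
    exact_mod_cast card_E_le n
  have h4 := h₁ n hn
  have h5 := h₂ n hn
  have h6 := Cr_le n
  have h7 : (n : ℝ) ^ δ ≤ (n : ℝ) ^ (1 / 2 + δ) :=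
    Real.rpow_le_rpow_of_exponent_le hn1 (by linarith)
  have h8 : 1 ≤ (n : ℝ) ^ (1 / 2 + δ) := Real.one_le_rpow hn1 (by linarith)
  have hp : (0 : ℝ) < mu ^ n := pow_pos hmu n
  have h9 : C₁ * (n : ℝ) ^ δ * mu ^ n ≤ C₁ * (n : ℝ) ^ (1 / 2 + δ) * mu ^ n :=
    mul_le_mul_of_nonneg_right (mul_le_mul_of_nonneg_left h7 hC₁.le) hp.le
  have h10 : mu ^ (n + 1) ≤ mu * (n : ℝ) ^ (1 / 2 + δ) * mu ^ n := by
    rw [pow_succ']
    apply mul_le_mul_of_nonneg_right _ hp.le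
    exact le_mul_of_one_le_right hmu.le h8
  calc ((E n).card : ℝ) ≤ 16 * (((Ar n).card : ℝ) + ((Cr n).card : ℝ) + ((Co n).card : ℝ)) := h3
    _ ≤ 16 * (C₁ * (n : ℝ) ^ (1 / 2 + δ) * mu ^ n + mu * (n : ℝ) ^ (1 / 2 + δ) * mu ^ n +
        C₂ * (n : ℝ) ^ (1 / 2 + δ) * mu ^ n) := by linarith
    _ = _ := by ring

end Pool.Agent.SawBox
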